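import Mathlib

/-! Task 16 (NUM) of the LG project (helper297): a numerical inequality. -/

open Finset MeasureTheory intervalIntegral

namespace LG

/-- Taylor polynomials of sine and cosine alternate around them. -/
theorem num_taylor (k : ℕ) :
    (∀ y : ℝ, 0 ≤ y → 0 ≤ (-1 : ℝ) ^ (k + 1) *
      (Real.sin y - ∑ j ∈ range (k + 1), (-1 : ℝ) ^ j * y ^ (2 * j + 1) / (2 * j + 1).factorial)) ∧
    (∀ y : ℝ, 0 ≤ y → 0 ≤ (-1 : ℝ) ^ (k + 1) *
      (Real.cos y - ∑ j ∈ range (k + 1), (-1 : ℝ) ^ j * y ^ (2 * j) / (2 * j).factorial)) := by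
  have step1 : ∀ k : ℕ, (∀ y : ℝ, 0 ≤ y → 0 ≤ (-1 : ℝ) ^ (k + 1) *
      (Real.cos y - ∑ j ∈ range (k + 1), (-1 : ℝ) ^ j * y ^ (2 * j) / (2 * j).factorial)) →
      (∀ y : ℝ, 0 ≤ y → 0 ≤ (-1 : ℝ) ^ (k + 1) *
      (Real.sin y - ∑ j ∈ range (k + 1), (-1 : ℝ) ^ j * y ^ (2 * j + 1) / (2 * j + 1).factorial)) := by
    intro k h
    set f : ℝ → ℝ := fun y => (-1 : ℝ) ^ (k + 1) *
      (Real.sin y - ∑ j ∈ range (k + 1), (-1 : ℝ) ^ j * y ^ (2 * j + 1) / (2 * j + 1).factorial)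
      with hf
    have hd : ∀ y, HasDerivAt f ((-1 : ℝ) ^ (k + 1) *
      (Real.cos y - ∑ j ∈ range (k + 1), (-1 : ℝ) ^ j * y ^ (2 * j) / (2 * j).factorial)) y := by
      intro y
      refine HasDerivAt.const_mul _ ((Real.hasDerivAt_sin y).sub ?_)
      refine HasDerivAt.fun_sum fun j _ => ?_
      have := ((hasDerivAt_pow (2 * j + 1) y).const_mul ((-1 : ℝ) ^ j)).div_const
        (((2 * j + 1).factorial : ℕ) : ℝ)
      refine this.congr_deriv ?_
      rw [Nat.factorial_succ]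
      have h1 : ((2 * j).factorial : ℝ) ≠ 0 := by positivity
      push_cast
      field_simp
    have hmono : MonotoneOn f (Set.Ici 0) := by
      refine monotoneOn_of_deriv_nonneg (convex_Ici 0)
        (fun x _ => (hd x).continuousAt.continuousWithinAt)
        (fun x _ => (hd x).differentiableAt.differentiableWithinAt) ?_
      intro x hx
      rw [interior_Ici] at hx
      rw [(hd x).deriv]
      exact h x hx.le
    intro y hy
    have h0 : f 0 = 0 := by
      simp [hf]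
    have := hmono (Set.mem_Ici.2 le_rfl) (Set.mem_Ici.2 hy) hy
    rw [h0] at this
    exact this
  have step2 : ∀ k : ℕ, (∀ y : ℝ, 0 ≤ y → 0 ≤ (-1 : ℝ) ^ (k + 1) *
      (Real.sin y - ∑ j ∈ range (k + 1), (-1 : ℝ) ^ j * y ^ (2 * j + 1) / (2 * j + 1).factorial)) →
      (∀ y : ℝ, 0 ≤ y → 0 ≤ (-1 : ℝ) ^ (k + 1 + 1) *
      (Real.cos y - ∑ j ∈ range (k + 1 + 1), (-1 : ℝ) ^ j * y ^ (2 * j) / (2 * j).factorial)) := by
    intro k h
    set f : ℝ → ℝ := fun y => (-1 : ℝ) ^ (k + 1 + 1) *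
      (Real.cos y - ∑ j ∈ range (k + 1 + 1), (-1 : ℝ) ^ j * y ^ (2 * j) / (2 * j).factorial)
      with hf
    have hd : ∀ y, HasDerivAt f ((-1 : ℝ) ^ (k + 1) *
      (Real.sin y - ∑ j ∈ range (k + 1), (-1 : ℝ) ^ j * y ^ (2 * j + 1) / (2 * j + 1).factorial)) y := by
      intro y
      have e1 : HasDerivAt (fun y : ℝ => ∑ j ∈ range (k + 1 + 1),
          (-1 : ℝ) ^ j * y ^ (2 * j) / (2 * j).factorial)
          (∑ j ∈ range (k + 1), (-1 : ℝ) ^ (j + 1) * y ^ (2 * j + 1) / (2 * j + 1).factorial) y := by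
        have e2 : (fun y : ℝ => ∑ j ∈ range (k + 1 + 1),
          (-1 : ℝ) ^ j * y ^ (2 * j) / (2 * j).factorial) = fun y => (∑ j ∈ range (k + 1),
          (-1 : ℝ) ^ (j + 1) * y ^ (2 * j + 2) / (2 * j + 2).factorial) + 1 := by
          funext y
          rw [Finset.sum_range_succ']
          simp [mul_add]
        rw [e2]
        refine HasDerivAt.add_const _ (HasDerivAt.fun_sum fun j _ => ?_)
        have := ((hasDerivAt_pow (2 * j + 2) y).const_mul ((-1 : ℝ) ^ (j + 1))).div_const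
          (((2 * j + 2).factorial : ℕ) : ℝ)
        refine this.congr_deriv ?_
        rw [Nat.factorial_succ (2 * j + 1)]
        have h1 : ((2 * j + 1).factorial : ℝ) ≠ 0 := by positivity
        push_cast
        field_simp
        ring
      have := ((Real.hasDerivAt_cos y).sub e1).const_mul ((-1 : ℝ) ^ (k + 1 + 1))
      refine this.congr_deriv ?_
      rw [pow_succ (-1 : ℝ) (k + 1)]
      have e3 : (∑ j ∈ range (k + 1), (-1 : ℝ) ^ (j + 1) * y ^ (2 * j + 1) / (2 * j + 1).factorial)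
        = - ∑ j ∈ range (k + 1), (-1 : ℝ) ^ j * y ^ (2 * j + 1) / (2 * j + 1).factorial := by
        rw [← Finset.sum_neg_distrib]
        refine Finset.sum_congr rfl fun j _ => ?_
        rw [pow_succ]; ring
      rw [e3]
      ring
    have hmono : MonotoneOn f (Set.Ici 0) := by
      refine monotoneOn_of_deriv_nonneg (convex_Ici 0)
        (fun x _ => (hd x).continuousAt.continuousWithinAt)
        (fun x _ => (hd x).differentiableAt.differentiableWithinAt) ?_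
      intro x hx
      rw [interior_Ici] at hx
      rw [(hd x).deriv]
      exact h x hx.le
    intro y hy
    have h0 : f 0 = 0 := by
      simp only [hf]
      rw [Finset.sum_range_succ']
      simp
    have := hmono (Set.mem_Ici.2 le_rfl) (Set.mem_Ici.2 hy) hy
    rw [h0] at this
    exact this
  induction k with
  | zero =>
    have hc : ∀ y : ℝ, 0 ≤ y → 0 ≤ (-1 : ℝ) ^ (0 + 1) *
      (Real.cos y - ∑ j ∈ range (0 + 1), (-1 : ℝ) ^ j * y ^ (2 * j) / (2 * j).factorial) := by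
      intro y _
      have := Real.cos_le_one y
      simp
      linarith
    exact ⟨step1 0 hc, hc⟩
  | succ k ih =>
    have hc := step2 k ih.1
    exact ⟨step1 (k + 1) hc, hc⟩

theorem num_sin (y : ℝ) (hy : 0 ≤ y) :
    ∑ j ∈ range 6, (-1 : ℝ) ^ j * y ^ (2 * j + 1) / (2 * j + 1).factorial ≤ Real.sin y := by
  have := (num_taylor 5).1 y hy
  norm_num at this ⊢
  linarith

theorem num_sinc (s v : ℝ) (hs : 0 ≤ s) (hv : 0 ≤ v) :
    ∑ j ∈ range 6, (-1 : ℝ) ^ j * s ^ (2 * j + 1) / (2 * j + 1).factorial * v ^ (2 * j) ≤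
      s * Real.sinc (s * v) := by
  rcases hv.eq_or_lt with rfl | hv
  · rw [mul_zero, Real.sinc_zero, Finset.sum_range_succ']
    simp
  · rcases hs.eq_or_lt with rfl | hs
    · simp
    · have hne : s * v ≠ 0 := by positivity
      rw [Real.sinc_of_ne_zero hne]
      have h := num_sin (s * v) (by positivity)
      have e : s * (Real.sin (s * v) / (s * v)) = Real.sin (s * v) / v := by
        field_simp
      rw [e, le_div_iff₀ hv]
      refine le_trans (le_of_eq ?_) h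
      rw [Finset.sum_mul]
      refine Finset.sum_congr rfl fun j _ => ?_
      rw [mul_pow, pow_succ v]
      ring

/-- 16. numeric inequality -/
theorem NUM : (257 / 100 : ℝ) * (73 / 35) < 4 * Real.sqrt 5 / Real.pi *
    ∫ v in (0 : ℝ)..1, Real.pi * (357 / 200) * (999 / 1000) *
      Real.sinc (Real.pi * (357 / 200) * (999 / 1000) * v) *
      (12 / 5 * (1 - v) ^ 5 + 77 / 30 * (1 - v) ^ 6 - 121 / 42 * (1 - v) ^ 7) := by
  have hpi := Real.pi_pos
  set s : ℝ := Real.pi * (357 / 200) * (999 / 1000) with hs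
  have hs0 : 0 < s := by positivity
  -- the comparison of the integrals
  have hint : ∫ v in (0 : ℝ)..1, (∑ j ∈ range 6, (-1 : ℝ) ^ j * s ^ (2 * j + 1) /
      (2 * j + 1).factorial * v ^ (2 * j)) *
      (12 / 5 * (1 - v) ^ 5 + 77 / 30 * (1 - v) ^ 6 - 121 / 42 * (1 - v) ^ 7) ≤
      ∫ v in (0 : ℝ)..1, s * Real.sinc (s * v) *
      (12 / 5 * (1 - v) ^ 5 + 77 / 30 * (1 - v) ^ 6 - 121 / 42 * (1 - v) ^ 7) := by
    refine intervalIntegral.integral_mono_on (by norm_num) ?_ ?_ ?_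
    · exact Continuous.intervalIntegrable (by fun_prop) _ _
    · have := Real.continuous_sinc
      exact Continuous.intervalIntegrable (by fun_prop) _ _
    · intro v hv
      refine mul_le_mul_of_nonneg_right (num_sinc s v hs0.le hv.1) ?_
      have h1 : 0 ≤ 1 - v := by linarith [hv.2]
      have h2 : 1 - v ≤ 1 := by linarith [hv.1]
      have h3 : 12 / 5 * (1 - v) ^ 5 + 77 / 30 * (1 - v) ^ 6 - 121 / 42 * (1 - v) ^ 7 =
        (1 - v) ^ 5 * (12 / 5 + 77 / 30 * (1 - v) - 121 / 42 * (1 - v) ^ 2) := by ring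
      rw [h3]
      refine mul_nonneg (pow_nonneg h1 5) ?_
      nlinarith
  have hval : ∫ v in (0 : ℝ)..1, (∑ j ∈ range 6, (-1 : ℝ) ^ j * s ^ (2 * j + 1) /
      (2 * j + 1).factorial * v ^ (2 * j)) *
      (12 / 5 * (1 - v) ^ 5 + 77 / 30 * (1 - v) ^ 6 - 121 / 42 * (1 - v) ^ 7) =
      ∑ j ∈ range 6, (-1 : ℝ) ^ j * s ^ (2 * j + 1) / (2 * j + 1).factorial *
        (12 / 5 * (1 / (2 * j + 1 : ℝ) - 5 / (2 * j + 2 : ℝ) + 10 / (2 * j + 3) - 10 / (2 * j + 4)
          + 5 / (2 * j + 5) - 1 / (2 * j + 6)) +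
         77 / 30 * (1 / (2 * j + 1 : ℝ) - 6 / (2 * j + 2 : ℝ) + 15 / (2 * j + 3) - 20 / (2 * j + 4)
          + 15 / (2 * j + 5) - 6 / (2 * j + 6) + 1 / (2 * j + 7)) -
         121 / 42 * (1 / (2 * j + 1 : ℝ) - 7 / (2 * j + 2 : ℝ) + 21 / (2 * j + 3) - 35 / (2 * j + 4)
          + 35 / (2 * j + 5) - 21 / (2 * j + 6) + 7 / (2 * j + 7) - 1 / (2 * j + 8))) := by
    set F : ℝ → ℝ := fun v => ∑ j ∈ range 6, (-1 : ℝ) ^ j * s ^ (2 * j + 1) / (2 * j + 1).factorial *
        (12 / 5 * (v ^ (2 * j + 1) / (2 * j + 1 : ℝ) - 5 * v ^ (2 * j + 2) / (2 * j + 2 : ℝ)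
          + 10 * v ^ (2 * j + 3) / (2 * j + 3) - 10 * v ^ (2 * j + 4) / (2 * j + 4)
          + 5 * v ^ (2 * j + 5) / (2 * j + 5) - v ^ (2 * j + 6) / (2 * j + 6)) +
         77 / 30 * (v ^ (2 * j + 1) / (2 * j + 1 : ℝ) - 6 * v ^ (2 * j + 2) / (2 * j + 2 : ℝ)
          + 15 * v ^ (2 * j + 3) / (2 * j + 3) - 20 * v ^ (2 * j + 4) / (2 * j + 4)
          + 15 * v ^ (2 * j + 5) / (2 * j + 5) - 6 * v ^ (2 * j + 6) / (2 * j + 6)
          + v ^ (2 * j + 7) / (2 * j + 7)) -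
         121 / 42 * (v ^ (2 * j + 1) / (2 * j + 1 : ℝ) - 7 * v ^ (2 * j + 2) / (2 * j + 2 : ℝ)
          + 21 * v ^ (2 * j + 3) / (2 * j + 3) - 35 * v ^ (2 * j + 4) / (2 * j + 4)
          + 35 * v ^ (2 * j + 5) / (2 * j + 5) - 21 * v ^ (2 * j + 6) / (2 * j + 6)
          + 7 * v ^ (2 * j + 7) / (2 * j + 7) - v ^ (2 * j + 8) / (2 * j + 8))) with hF
    have hd : ∀ v : ℝ, HasDerivAt F ((∑ j ∈ range 6, (-1 : ℝ) ^ j * s ^ (2 * j + 1) /
      (2 * j + 1).factorial * v ^ (2 * j)) *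
      (12 / 5 * (1 - v) ^ 5 + 77 / 30 * (1 - v) ^ 6 - 121 / 42 * (1 - v) ^ 7)) v := by
      intro v
      have hp : ∀ (c : ℝ) (n : ℕ), HasDerivAt (fun v : ℝ => c * v ^ (n + 1) / ((n : ℝ) + 1))
          (c * v ^ n) v := by
        intro c n
        have := ((hasDerivAt_pow (n + 1) v).const_mul c).div_const ((n : ℝ) + 1)
        refine this.congr_deriv ?_
        have : ((n : ℝ) + 1) ≠ 0 := by positivity
        push_cast
        field_simp
      rw [Finset.sum_mul]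
      refine HasDerivAt.fun_sum fun j _ => ?_
      have h1 := hp 1 (2 * j)
      have h2 := hp 1 (2 * j + 1)
      have h3 := hp 1 (2 * j + 2)
      have h4 := hp 1 (2 * j + 3)
      have h5 := hp 1 (2 * j + 4)
      have h6 := hp 1 (2 * j + 5)
      have h7 := hp 1 (2 * j + 6)
      have h8 := hp 1 (2 * j + 7)
      push_cast at h1 h2 h3 h4 h5 h6 h7 h8
      have hh := (((((((h1.sub (h2.const_mul 5)).add (h3.const_mul 10)).sub (h4.const_mul 10)).add
        (h5.const_mul 5)).sub h6).const_mul (12 / 5 : ℝ)).add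
        (((((((h1.sub (h2.const_mul 6)).add (h3.const_mul 15)).sub (h4.const_mul 20)).add
        (h5.const_mul 15)).sub (h6.const_mul 6)).add h7).const_mul (77 / 30 : ℝ))).sub
        ((((((((h1.sub (h2.const_mul 7)).add (h3.const_mul 21)).sub (h4.const_mul 35)).add
        (h5.const_mul 35)).sub (h6.const_mul 21)).add (h7.const_mul 7)).sub h8).const_mul
        (121 / 42 : ℝ))
      have hh2 := hh.const_mul ((-1 : ℝ) ^ j * s ^ (2 * j + 1) / (2 * j + 1).factorial)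
      refine HasDerivAt.congr_deriv (hh2.congr_of_eventuallyEq (Filter.Eventually.of_forall ?_)) ?_
      · intro w
        simp only [Pi.add_apply, Pi.sub_apply]
        ring
      · ring
    rw [intervalIntegral.integral_eq_sub_of_hasDerivAt (fun v _ => hd v)
      (Continuous.intervalIntegrable (by fun_prop) _ _)]
    have h0 : F 0 = 0 := by
      simp [hF]
    rw [h0, sub_zero]
    simp [hF]
  have hsum : (257 / 100 : ℝ) * (73 / 35) * Real.pi < 4 * Real.sqrt 5 *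
      ∑ j ∈ range 6, (-1 : ℝ) ^ j * s ^ (2 * j + 1) / (2 * j + 1).factorial *
        (12 / 5 * (1 / (2 * j + 1 : ℝ) - 5 / (2 * j + 2 : ℝ) + 10 / (2 * j + 3) - 10 / (2 * j + 4)
          + 5 / (2 * j + 5) - 1 / (2 * j + 6)) +
         77 / 30 * (1 / (2 * j + 1 : ℝ) - 6 / (2 * j + 2 : ℝ) + 15 / (2 * j + 3) - 20 / (2 * j + 4)
          + 15 / (2 * j + 5) - 6 / (2 * j + 6) + 1 / (2 * j + 7)) -
         121 / 42 * (1 / (2 * j + 1 : ℝ) - 7 / (2 * j + 2 : ℝ) + 21 / (2 * j + 3) - 35 / (2 * j + 4)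
          + 35 / (2 * j + 5) - 21 / (2 * j + 6) + 7 / (2 * j + 7) - 1 / (2 * j + 8))) := by
    have h5 : (2236 / 1000 : ℝ) < Real.sqrt 5 := by
      apply Real.lt_sqrt_of_sq_lt
      norm_num
    have hlo : (314159 / 100000 : ℝ) < Real.pi := by
      have := Real.pi_gt_d6; linarith
    have hup : Real.pi < (31416 / 10000 : ℝ) := by
      have := Real.pi_lt_d6; linarith
    have hspi : s = 1783215 / 1000000 * Real.pi := by rw [hs]; ring
    have l2 : (314159 / 100000 : ℝ) ^ 2 ≤ Real.pi ^ 2 := by gcongr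
    have u2 : Real.pi ^ 2 ≤ (31416 / 10000 : ℝ) ^ 2 := by gcongr
    have l4 : (314159 / 100000 : ℝ) ^ 4 ≤ Real.pi ^ 4 := by gcongr
    have u6 : Real.pi ^ 6 ≤ (31416 / 10000 : ℝ) ^ 6 := by gcongr
    have l8 : (314159 / 100000 : ℝ) ^ 8 ≤ Real.pi ^ 8 := by gcongr
    have u10 : Real.pi ^ 10 ≤ (31416 / 10000 : ℝ) ^ 10 := by gcongr
    have key : ∃ R : ℝ, (∑ j ∈ range 6, (-1 : ℝ) ^ j * s ^ (2 * j + 1) / (2 * j + 1).factorial *
        (12 / 5 * (1 / (2 * j + 1 : ℝ) - 5 / (2 * j + 2 : ℝ) + 10 / (2 * j + 3) - 10 / (2 * j + 4)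
          + 5 / (2 * j + 5) - 1 / (2 * j + 6)) +
         77 / 30 * (1 / (2 * j + 1 : ℝ) - 6 / (2 * j + 2 : ℝ) + 15 / (2 * j + 3) - 20 / (2 * j + 4)
          + 15 / (2 * j + 5) - 6 / (2 * j + 6) + 1 / (2 * j + 7)) -
         121 / 42 * (1 / (2 * j + 1 : ℝ) - 7 / (2 * j + 2 : ℝ) + 21 / (2 * j + 3) - 35 / (2 * j + 4)
          + 35 / (2 * j + 5) - 21 / (2 * j + 6) + 7 / (2 * j + 7) - 1 / (2 * j + 8)))) =
          Real.pi * R ∧ (257 / 100 : ℝ) * (73 / 35) ≤ 4 * (2236 / 1000) * R := by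
      refine ⟨(1783215 / 1000000) ^ 1 * (683 / 1680) - (1783215 / 1000000) ^ 3 * (83 / 30240) * Real.pi ^ 2 + (1783215 / 1000000) ^ 5 * (173 / 9072000) * Real.pi ^ 4 - (1783215 / 1000000) ^ 7 * (2657 / 25427001600) * Real.pi ^ 6 + (1783215 / 1000000) ^ 9 * (167 / 373621248000) * Real.pi ^ 8 - (1783215 / 1000000) ^ 11 * (4453 / 2934421281792000) * Real.pi ^ 10, ?_, ?_⟩
      · rw [hspi]
        simp only [Finset.sum_range_succ, Finset.sum_range_zero, Nat.factorial]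
        push_cast
        ring
      · linarith
    obtain ⟨R, hR, hR2⟩ := key
    rw [hR]
    have hR0 : 0 < R := by
      by_contra hc
      push Not at hc
      nlinarith
    have : (257 / 100 : ℝ) * (73 / 35) < 4 * Real.sqrt 5 * R := by
      refine lt_of_le_of_lt hR2 ?_
      gcongr
    calc (257 / 100 : ℝ) * (73 / 35) * Real.pi < (4 * Real.sqrt 5 * R) * Real.pi := by gcongr
      _ = _ := by ring
  have h4 : 4 * Real.sqrt 5 / Real.pi * (∑ j ∈ range 6, (-1 : ℝ) ^ j * s ^ (2 * j + 1) /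
      (2 * j + 1).factorial *
        (12 / 5 * (1 / (2 * j + 1 : ℝ) - 5 / (2 * j + 2 : ℝ) + 10 / (2 * j + 3) - 10 / (2 * j + 4)
          + 5 / (2 * j + 5) - 1 / (2 * j + 6)) +
         77 / 30 * (1 / (2 * j + 1 : ℝ) - 6 / (2 * j + 2 : ℝ) + 15 / (2 * j + 3) - 20 / (2 * j + 4)
          + 15 / (2 * j + 5) - 6 / (2 * j + 6) + 1 / (2 * j + 7)) -
         121 / 42 * (1 / (2 * j + 1 : ℝ) - 7 / (2 * j + 2 : ℝ) + 21 / (2 * j + 3) - 35 / (2 * j + 4)
          + 35 / (2 * j + 5) - 21 / (2 * j + 6) + 7 / (2 * j + 7) - 1 / (2 * j + 8)))) ≤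
      4 * Real.sqrt 5 / Real.pi * ∫ v in (0 : ℝ)..1, s * Real.sinc (s * v) *
      (12 / 5 * (1 - v) ^ 5 + 77 / 30 * (1 - v) ^ 6 - 121 / 42 * (1 - v) ^ 7) := by
    refine mul_le_mul_of_nonneg_left ?_ (by positivity)
    rw [← hval]
    exact hint
  refine lt_of_lt_of_le ?_ h4
  have e : ∀ a b c : ℝ, a / b * c = a * c / b := fun a b c => div_mul_eq_mul_div a b c
  rw [e (4 * Real.sqrt 5), lt_div_iff₀ hpi]
  exact hsum

end LG
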